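import Pool.Agent.T9h90.SP.Spec

set_option autoImplicit false

/-! The main step (LT) of the dichotomy for separable permutations. -/

namespace Pool.Agent.T9h58.SP

open Pool.Agent.Helper617.RM Pool.Agent.T9h90.SP

universe u

section pure

variable {M : Type u} [LinearOrder M]

theorem copy_mono {f : M → M → Bool} {H H' : Set M} {p : Sep} {x : ℕ → M} (h : H ⊆ H')
    (hc : Copy f H p x) : Copy f H' p x := ⟨fun i hi => h (hc.1 i hi), hc.2⟩

theorem unb_mono {H H' : Set M} (h : H ⊆ H') (hu : Unb H) : Unb H' := fun b => by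
  obtain ⟨y, hy, hb⟩ := hu b
  exact ⟨y, h hy, hb⟩

theorem unb_above {W : Set M} (hW : Unb W) (n : ℕ) (x : ℕ → M) :
    Unb {w | w ∈ W ∧ ∀ i, i < n → x i < w} := by
  induction n with
  | zero =>
    intro b
    obtain ⟨y, hy, hb⟩ := hW b
    exact ⟨y, ⟨hy, fun i hi => absurd hi (Nat.not_lt_zero i)⟩, hb⟩
  | succ n ih =>
    intro b
    obtain ⟨y, hy, hb⟩ := ih (max b (x n))
    refine ⟨y, ⟨hy.1, fun i hi => ?_⟩, lt_of_le_of_lt (le_max_left _ _) hb⟩
    rcases Nat.lt_succ_iff_lt_or_eq.1 hi with h | h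
    · exact hy.2 i h
    · rw [h]
      exact lt_of_le_of_lt (le_max_right _ _) hb

theorem unb_pigeon {W : Set M} (hW : Unb W) (n : ℕ) (P : ℕ → M → Prop)
    (h : ∀ i, i < n → ¬ Unb {w | w ∈ W ∧ P i w}) :
    Unb {w | w ∈ W ∧ ∀ i, i < n → ¬ P i w} := by
  intro b0
  have h' : ∀ i, ∃ b, i < n → ∀ y ∈ W, P i y → y ≤ b := by
    intro i
    by_cases hi : i < n
    · have h1 := h i hi
      by_contra hcon
      refine h1 fun b => ?_
      by_contra hb
      refine hcon ⟨b, fun _ y hy hP => ?_⟩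
      by_contra hyb
      exact hb ⟨y, ⟨hy, hP⟩, lt_of_not_ge hyb⟩
    · exact ⟨b0, fun hi' => absurd hi' hi⟩
  choose b hb using h'
  refine unb_mono ?_ (unb_above hW n b) b0
  rintro w ⟨hw, hw'⟩
  exact ⟨hw, fun i hi hP => absurd (hw' i hi) (not_lt_of_ge (hb i hi w hw hP))⟩

end pure

theorem bool_ne_not {a c : Bool} (h : a ≠ !c) : a = c := by
  cases a <;> cases c <;> simp_all

theorem bool_ne {a c : Bool} (h : a ≠ c) : a = !c := by
  cases a <;> cases c <;> simp_all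

theorem D0_col {N : L2Structure.{u}} [IsModelRCA0 N] {f : N.M → N.M → Bool} (hf : DF N f)
    (c : Bool) : D0 (fun v : Ctx N => f (v 0) (v 1) = c) := by
  cases c with
  | true => exact hf
  | false =>
    refine D0.congr (D0.not hf) fun v => ?_
    simp

theorem lt (hCP : S_CP.{u}) (hNC : S_NC.{u}) (hCS : S_CS.{u}) (hTV : S_TV.{u}) (hSB : S_SB.{u})
    (hHM : S_HM.{u}) : S_LT.{u} := by
  intro N _ f hf hB2 hBad c H hH hHu b q hNo1 hNo2 hRe
  -- (ii)
  have ii : ∀ x0, x0 ∈ H → ∀ z, Copy f (Nc f (!c) H 1 (fun _ => x0)) (b.infl q) z →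
      ∃ B, ∀ w ∈ H, B ≤ w → f x0 w = !c := by
    intro x0 hx0 z hz
    by_contra hcon
    have hW : Unb {w | w ∈ H ∧ f x0 w = c} := by
      intro B
      by_contra hB
      refine hcon ⟨B + 1, fun w hw hBw => bool_ne fun hfw => hB ⟨w, ⟨hw, hfw⟩, ?_⟩⟩
      exact add_one_le_iff'.1 hBw
    obtain ⟨u, hu, -, hU⟩ := hTV N.M f (Nc f (!c) H 1 (fun _ => x0)) (!c) b q z
      {w | w ∈ H ∧ f x0 w = c} hW hz (by
        intro x hx W' hW' hW'u
        by_contra hno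
        have hno' : ∀ i, i < q.size → ¬ Unb {w | w ∈ W' ∧ f (x i) w = !c} :=
          fun i hi h => hno ⟨i, hi, h⟩
        have h1 := unb_pigeon hW'u q.size (fun i w => f (x i) w = !c) hno'
        have h2 := unb_above (unb_above h1 q.size x) 1 (fun _ => x0)
        refine hNo2 _ ((hCP N.M f H (!c) .one q).1 (fun _ => x0) x
          ⟨fun _ _ => hx0, ?_⟩ hx) (unb_mono ?_ h2)
        · intro i j hij hj
          have hj1 : j < 1 := hj
          omega
        · rintro w ⟨⟨⟨hw, hw1⟩, hw2⟩, hw3⟩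
          have hwH := hW' hw
          refine ⟨hwH.1, fun i hi => ?_⟩
          by_cases hi0 : i < Sep.one.size
          · simp only [if_pos hi0]
            exact ⟨hw3 0 Nat.one_pos, hwH.2⟩
          · simp only [if_neg hi0]
            have hi1 : ¬ i < 1 := hi0
            have hi2 : i < 1 + q.size := hi
            have hi3 : i - Sep.one.size < q.size := by
              show i - 1 < q.size
              omega
            exact ⟨hw2 _ hi3, bool_ne_not (hw1 _ hi3)⟩)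
    refine hNo1 u (copy_mono (fun w hw => hw.1) hu) ?_
    refine unb_mono ?_ (unb_above hU b.size u)
    rintro w ⟨⟨⟨hw, _⟩, hw2⟩, hw3⟩
    exact ⟨hw, fun i hi => ⟨hw3 i hi, hw2 i hi⟩⟩
  -- (i)
  have i1 : ∀ B, ∃ x0, (x0 ∈ H ∧
      ∃ z, Copy f {y | y ∈ H ∧ x0 < y ∧ f x0 y = !c} (b.infl q) z) ∧ B < x0 := by
    intro B
    have hHB : {y | y ∈ H ∧ B < y} ∈ N.Sets :=
      comp_D0 (P := fun y => y ∈ H ∧ B < y)
        ((D0.mem (Tm.var 0) hH).and (D0.lt (Tm.const B) (Tm.var 0)))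
    have hHBu : Unb {y | y ∈ H ∧ B < y} := by
      intro b'
      obtain ⟨y, hy, hby⟩ := hHu (max b' B)
      exact ⟨y, ⟨hy, lt_of_le_of_lt (le_max_right _ _) hby⟩,
        lt_of_le_of_lt (le_max_left _ _) hby⟩
    by_contra hcon
    have key : ∀ x ∈ {y | y ∈ H ∧ B < y}, ∃ b', ∀ w ∈ {y | y ∈ H ∧ B < y},
        b' ≤ w → f x w = c := by
      intro x hx
      by_contra hx'
      refine hcon ⟨x, ⟨hx.1, ?_⟩, hx.2⟩
      have hUnb : Unb (Nc f (!c) {y | y ∈ H ∧ B < y} 1 (fun _ => x)) := by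
        intro b'
        by_contra hb'
        refine hx' ⟨max b' x + 1, fun w hw hbw => ?_⟩
        by_contra hfw
        have hlt := add_one_le_iff'.1 hbw
        exact hb' ⟨w, ⟨hw, fun _ _ => ⟨lt_of_le_of_lt (le_max_right _ _) hlt, bool_ne hfw⟩⟩,
          lt_of_le_of_lt (le_max_left _ _) hlt⟩
      obtain ⟨z, hz⟩ := hRe _ (hNC N f hf (!c) _ hHB 1 (fun _ => x)) (fun w hw => hw.1.1) hUnb
      exact ⟨z, copy_mono (fun w hw => ⟨hw.1.1, hw.2 0 Nat.one_pos⟩) hz⟩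
    obtain ⟨H', hH', hsub, hu', hhom⟩ := hHM N f hf hB2 c _ hHB hHBu key
    exact hBad H' hH' hu' c hhom
  have hD0 : D0 (fun v : Ctx N => v 1 ∈ H ∧ v 0 < v 1 ∧ f (v 0) (v 1) = !c) :=
    (D0.mem (Tm.var 1) hH).and ((D0.lt (Tm.var 0) (Tm.var 1)).and (D0_col hf (!c)))
  have hS1 : S1 (fun v : Ctx N => v 0 ∈ H ∧
      ∃ z, Copy f {y | y ∈ H ∧ v 0 < y ∧ f (v 0) y = !c} (b.infl q) z) := by
    refine S1.and (D0.mem (Tm.var 0) hH).S1 ?_
    exact (hCS N f hf (b.infl q) (fun x y => y ∈ H ∧ x < y ∧ f x y = !c) (fun _ _ => True)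
      hD0 (D0.const True)).1
  obtain ⟨H2, hH2, hu2, hK2⟩ := hSB N (fun x => x ∈ H ∧
      ∃ z, Copy f {y | y ∈ H ∧ x < y ∧ f x y = !c} (b.infl q) z) hS1 i1
  obtain ⟨H', hH', hsub, hu', hhom⟩ := hHM N f hf hB2 (!c) H2 hH2 hu2 (by
    intro x hx
    obtain ⟨hxH, z, hz⟩ := hK2 x hx
    obtain ⟨B, hB⟩ := ii x hxH z (copy_mono (fun w hw => ⟨hw.1, fun _ _ => hw.2⟩) hz)
    exact ⟨B, fun w hw hBw => hB w (hK2 w hw).1 hBw⟩)
  exact hBad H' hH' hu' (!c) hhom

end Pool.Agent.T9h58.SP
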